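import Pool.Agent.W548.CZ.Main

set_option autoImplicit false

/-!
# Colmez' conjecture for CM fields with cut Galois group

`G` is the Galois group over `ℚ` of a Galois CM field `K` and `c` is complex conjugation.  The
theorem determines exactly which cases of Colmez' conjecture for CM types on subfields of `K` are
implied by the averaged Colmez formula together with the abelian case, and shows that this
includes all CM types on all CM subfields of `K` (Faltings height form) whenever `G` is a cut group.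
-/

namespace Pool.Agent.Results.MP_a2beea_nt.CutGaloisGroups

open Pool.Agent.W548.CZ

private lemma aux (n k : ℕ) (hn : n = 1 ∨ n = 2 ∨ n = 3 ∨ n = 4 ∨ n = 6) (hk : k < n)
    (hg : Nat.gcd n k = 1) : k % n = 1 % n ∨ k + 1 = n := by
  rcases hn with rfl | rfl | rfl | rfl | rfl <;> interval_cases k <;>
    first | (left; rfl) | (right; rfl) | (exfalso; revert hg; decide)

/-- see the claim file -/
theorem result {G : Type} [Group G] [Fintype G] [DecidableEq G] (c : G)
    (hc : ∀ g, c * g = g * c) (hc2 : c * c = 1) :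
    -- (1) exact reach for a single embedding `ψ = xH` of `E = K^H`
    (∀ H : Subgroup G, c ∉ H → ∀ S : Finset G, IsCMType c H S → ∀ x : G,
      ((∀ δ : (G → ℚ) →ₗ[ℚ] ℝ, Known c δ → δ (a0 x S) = 0) ↔ Crit (a0 x S))) ∧
    -- (2) exact reach for the Faltings height, i.e. for the sum over `ψ ∈ Φ`
    (∀ H : Subgroup G, c ∉ H → ∀ S : Finset G, IsCMType c H S →
      ((∀ δ : (G → ℚ) →ₗ[ℚ] ℝ, Known c δ → ∑ x ∈ S, δ (a0 x S) = 0) ↔
        Crit (fun g => ∑ x ∈ S, a0 x S g))) ∧
    -- (3) all CM types and all embeddings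
    ((∀ g : G, (∃ z, z⁻¹ * g * z = c * g) ∨ (∀ u ∈ commutator G, ∃ z, z⁻¹ * g * z = g * u) ∨
        (∀ y, Subgroup.zpowers y = Subgroup.zpowers g → ∃ z, z⁻¹ * g * z = y)) →
      ∀ δ : (G → ℚ) →ₗ[ℚ] ℝ, Known c δ → ∀ H : Subgroup G, c ∉ H → ∀ S : Finset G,
        IsCMType c H S → ∀ x : G, δ (a0 x S) = 0) ∧
    -- (4) all CM types, Faltings height form: cut groups
    ((∀ g : G, (∃ z, z⁻¹ * g * z = c * g) ∨ (∀ u ∈ commutator G, ∃ z, z⁻¹ * g * z = g * u) ∨
        (∀ y, Subgroup.zpowers y = Subgroup.zpowers g →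
          (∃ z, z⁻¹ * g * z = y) ∨ (∃ z, z⁻¹ * g * z = y⁻¹))) →
      ∀ δ : (G → ℚ) →ₗ[ℚ] ℝ, Known c δ → ∀ H : Subgroup G, c ∉ H → ∀ S : Finset G,
        IsCMType c H S → ∑ x ∈ S, δ (a0 x S) = 0) ∧
    -- (5) groups all of whose elements have order 1, 2, 3, 4 or 6
    ((∀ g : G, orderOf g = 1 ∨ orderOf g = 2 ∨ orderOf g = 3 ∨ orderOf g = 4 ∨ orderOf g = 6) →
      ∀ δ : (G → ℚ) →ₗ[ℚ] ℝ, Known c δ → ∀ H : Subgroup G, c ∉ H → ∀ S : Finset G,
        IsCMType c H S → ∑ x ∈ S, δ (a0 x S) = 0) ∧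
    -- (6) arbitrary `G`, CM types closed under change of generators of cyclic subgroups
    (∀ δ : (G → ℚ) →ₗ[ℚ] ℝ, Known c δ → ∀ H : Subgroup G, c ∉ H → ∀ S : Finset G,
      IsCMType c H S → (∀ g y, Subgroup.zpowers g = Subgroup.zpowers y → (g ∈ S ↔ y ∈ S)) →
        δ (a0 1 S) = 0) := by
  have h4 : (∀ g : G, (∃ z, z⁻¹ * g * z = c * g) ∨
        (∀ u ∈ commutator G, ∃ z, z⁻¹ * g * z = g * u) ∨
        (∀ y, Subgroup.zpowers y = Subgroup.zpowers g →
          (∃ z, z⁻¹ * g * z = y) ∨ (∃ z, z⁻¹ * g * z = y⁻¹))) →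
      ∀ δ : (G → ℚ) →ₗ[ℚ] ℝ, Known c δ → ∀ H : Subgroup G, c ∉ H → ∀ S : Finset G,
        IsCMType c H S → ∑ x ∈ S, δ (a0 x S) = 0 := by
    intro hcond δ hδ H hH S hS
    have e : ∑ x ∈ S, δ (a0 x S) = δ (fun g => ∑ x ∈ S, a0 x S g) := by
      have e2 : (fun g => ∑ x ∈ S, a0 x S g) = ∑ x ∈ S, a0 x S := by
        funext g; simp only [Finset.sum_apply]
      rw [e2, map_sum]
    rw [e]
    apply delta_crit hc hc2 hδ (fal_Cl S) S.card (fun g => fal_c hc hS g)
    apply crit_of_cond hc hc2 (fal_Cl S) S.card (fun g => fal_c hc hS g)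
    intro g
    rcases hcond g with h | h | h
    · exact Or.inl h
    · exact Or.inr (Or.inl h)
    · refine Or.inr (Or.inr ?_)
      intro y hy
      rcases h y hy with h | h
      · exact Or.inl h
      · exact Or.inr ⟨fun g => fal_inv S g, h⟩
  refine ⟨?_, ?_, ?_, h4, ?_, ?_⟩
  · intro H hH S hS x
    constructor
    · intro h
      by_contra hcr
      obtain ⟨δ, hδ, hne⟩ := exists_delta hc hc2 hcr
      exact hne (h δ hδ)
    · intro hcr δ hδ
      exact delta_crit hc hc2 hδ (a0_Cl x S) 1 (fun g => a0_c hc hS x g) hcr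
  · intro H hH S hS
    have e : ∀ δ : (G → ℚ) →ₗ[ℚ] ℝ, ∑ x ∈ S, δ (a0 x S) = δ (fun g => ∑ x ∈ S, a0 x S g) := by
      intro δ
      have e2 : (fun g => ∑ x ∈ S, a0 x S g) = ∑ x ∈ S, a0 x S := by
        funext g; simp only [Finset.sum_apply]
      rw [e2, map_sum]
    simp only [e]
    constructor
    · intro h
      by_contra hcr
      obtain ⟨δ, hδ, hne⟩ := exists_delta hc hc2 hcr
      exact hne (h δ hδ)
    · intro hcr δ hδ
      exact delta_crit hc hc2 hδ (fal_Cl S) S.card (fun g => fal_c hc hS g) hcr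
  · intro hcond δ hδ H hH S hS x
    apply delta_crit hc hc2 hδ (a0_Cl x S) 1 (fun g => a0_c hc hS x g)
    apply crit_of_cond hc hc2 (a0_Cl x S) 1 (fun g => a0_c hc hS x g)
    intro g
    rcases hcond g with h | h | h
    · exact Or.inl h
    · exact Or.inr (Or.inl h)
    · exact Or.inr (Or.inr (fun y hy => Or.inl (h y hy)))
  · intro hord
    apply h4
    intro g
    refine Or.inr (Or.inr ?_)
    intro y hy
    have ho : orderOf y = orderOf g := by
      rw [← Nat.card_zpowers, ← Nat.card_zpowers, hy]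
    have hy2 : y ∈ Subgroup.zpowers g := by rw [← hy]; exact Subgroup.mem_zpowers y
    have hfin : IsOfFinOrder g := isOfFinOrder_of_finite g
    obtain ⟨k, hk, hky⟩ : ∃ k, k < orderOf g ∧ g ^ k = y := by
      obtain ⟨n, hn⟩ := (Submonoid.mem_powers_iff _ _).1 (hfin.mem_powers_iff_mem_zpowers.2 hy2)
      exact ⟨n % orderOf g, Nat.mod_lt _ hfin.orderOf_pos, by rw [pow_mod_orderOf, hn]⟩
    have hg : orderOf (g ^ k) = orderOf g / Nat.gcd (orderOf g) k := orderOf_pow g
    rw [hky, ho] at hg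
    have hpos : 0 < orderOf g := hfin.orderOf_pos
    have hgcd : Nat.gcd (orderOf g) k = 1 := by
      have h1 : Nat.gcd (orderOf g) k ∣ orderOf g := Nat.gcd_dvd_left _ _
      have h2 : 0 < Nat.gcd (orderOf g) k := Nat.gcd_pos_of_pos_left _ hpos
      have h3 := Nat.div_mul_cancel h1
      rw [← hg] at h3
      nlinarith
    have hpm : k % orderOf g = 1 % orderOf g ∨ k + 1 = orderOf g := aux _ _ (hord g) hk hgcd
    rcases hpm with h | h
    · left
      refine ⟨1, ?_⟩
      rw [← hky]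
      simp only [inv_one, one_mul, mul_one]
      conv_lhs => rw [← pow_one g]
      rw [← pow_mod_orderOf g 1, ← pow_mod_orderOf g k, h]
    · right
      refine ⟨1, ?_⟩
      rw [← hky]
      simp only [inv_one, one_mul, mul_one]
      rw [eq_comm, inv_eq_iff_mul_eq_one, ← pow_succ, h, pow_orderOf_eq_one]
  · intro δ hδ H hH S hS hst
    apply delta_crit hc hc2 hδ (a0_Cl 1 S) 1 (fun g => a0_c hc hS 1 g)
    refine ⟨a0 1 S, fun _ => 0, fun _ => by simp, ?_, fun _ _ _ => rfl⟩
    intro g y hgy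
    unfold a0
    congr 2
    apply congrArg Finset.card
    apply Finset.filter_congr
    intro η _
    rw [mul_one, mul_one]
    apply hst
    have key : ∀ w : G, Subgroup.zpowers (η⁻¹ * w * η) =
        (Subgroup.zpowers w).map (MulAut.conj η⁻¹).toMonoidHom := by
      intro w
      rw [MonoidHom.map_zpowers]
      congr 1
      simp
    rw [key, key, hgy]

end Pool.Agent.Results.MP_a2beea_nt.CutGaloisGroups
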