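import Pool.Agent.W548.CZ.Field

set_option autoImplicit false

/-!
# Colmez' conjecture for CM fields with a primitive maximal real subfield

`G` is the Galois group over `ℚ` of a Galois CM field `K`, `c` is complex conjugation, `H` a subgroup
with `c ∉ H`, `E = K^H` and `F = K^(H ∪ cH)` its maximal totally real subfield.
-/

namespace Pool.Agent.Results.MP_a2beea_nt.PrimitiveRealSubfield

open Pool.Agent.W548.CZ

/-- Colmez' formula for all embeddings `ψ` and all CM types `Φ` of `E = K^H` follows from the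
averaged formula and the abelian case (bundled in `Known`). -/
def AllTypes {G : Type} [Group G] [Fintype G] [DecidableEq G] (c : G) (H : Subgroup G) : Prop :=
  ∀ δ : (G → ℚ) →ₗ[ℚ] ℝ, Known c δ → ∀ S : Finset G, IsCMType c H S → ∀ x : G, δ (a0 x S) = 0

/-- see the claim file -/
theorem result {G : Type} [Group G] [Fintype G] [DecidableEq G] (c : G)
    (hc : ∀ g, c * g = g * c) (hc2 : c * c = 1) (H : Subgroup G) (hcH : c ∉ H) :
    -- (1) exact reach for the field `E`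
    (AllTypes c H ↔ ∀ t : G, Crit (fun g => (Nat.card {η : G // t * (η⁻¹ * g * η) ∈ H} : ℚ) -
      Nat.card {η : G // c * (t * (η⁻¹ * g * η)) ∈ H})) ∧
    -- (2) every embedding `ψ' ≠ ψ, cψ` is moved to its conjugate by an automorphism fixing `ψ`
    ((∀ t : G, t ∉ H → c * t ∉ H → ∃ h ∈ H, c * (t * h * t⁻¹) ∈ H) → AllTypes c H) ∧
    -- (3) `F` has no proper subfield and `[E^c : F^c] > 2`
    ((∀ M : Subgroup G, H ≤ M → c ∈ M → (M = ⊤ ∨ ∀ m ∈ M, m ∈ H ∨ c * m ∈ H)) →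
      (∀ N : Subgroup G, N.Normal → N ≤ H → N = ⊥) →
      (∃ N : Subgroup G, N.Normal ∧ c ∈ N ∧ (∀ n ∈ N, n ∈ H ∨ c * n ∈ H) ∧
        ∃ n ∈ N, n ≠ 1 ∧ n ≠ c) → AllTypes c H) ∧
    -- (4) `E = F K₀`, `K₀ = K^G₀` imaginary quadratic, `F` with doubly transitive Galois group
    ((∃ G₀ : Subgroup G, c ∉ G₀ ∧ (∀ g, g ∈ G₀ ∨ c * g ∈ G₀) ∧ H ≤ G₀ ∧
      (∀ a ∈ G₀, ∀ b ∈ G₀, a ∉ H → b ∉ H → ∃ h ∈ H, ∃ h' ∈ H, b = h * a * h')) →
        AllTypes c H) := by
  classical
  have hoo : ∀ t : G, (fun g => (Nat.card {η : G // t * (η⁻¹ * g * η) ∈ H} : ℚ) -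
      Nat.card {η : G // c * (t * (η⁻¹ * g * η)) ∈ H}) = oo c H t := by
    intro t
    funext g
    unfold oo chi
    rw [Finset.sum_sub_distrib, Finset.sum_boole, Finset.sum_boole, Nat.card_eq_fintype_card,
      Nat.card_eq_fintype_card, Fintype.card_subtype, Fintype.card_subtype]
  have key : (∀ t : G, Crit (oo c H t)) → AllTypes c H := by
    intro h δ hδ S hS x
    exact delta_crit hc hc2 hδ (a0_Cl x S) 1 (fun g => a0_c hc hS x g)
      (crit_a0_of_oo hc h hS x)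
  refine ⟨?_, ?_, ?_, ?_⟩
  · simp only [hoo]
    refine ⟨?_, key⟩
    intro h t
    by_contra hcr
    obtain ⟨S, hS⟩ := exists_cm hc hc2 hcH
    obtain ⟨δ, hδ, hne⟩ := exists_delta hc hc2 hcr
    apply hne
    rw [oo_eq_sub hcH hS t, map_smul, map_sub, h δ hδ S hS t,
      h δ hδ _ (flip_cm hc2 hS) t, sub_zero, smul_zero]
  · intro hM
    exact key (crit_oo_mackey hc hc2 hM)
  · intro hmax hcore hbig
    exact key (crit_oo_mackey hc hc2 (mackey_of_primitive hc hc2 hmax hcore hbig))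
  · rintro ⟨G₀, h1, h2, h3, h4⟩
    exact key (crit_oo_two_transitive hc hc2 h1 h2 h3 h4)

end Pool.Agent.Results.MP_a2beea_nt.PrimitiveRealSubfield
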